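import Mathlib
import Pool.Agent.H366R3.ED.NoSeq
import Pool.Agent.H366R3.ED.Fam

set_option autoImplicit false

open Set Filter Topology MeasureTheory Metric
open scoped ContDiff ENNReal

namespace Pool.Agent.Results.MP_e277cf_an.ThreeConnected

open Pool.Agent.H366R3.ED

/-- The complement of `D` in the Riemann sphere. -/
def sphereCompl (D : Set ℂ) : Set (OnePoint ℂ) := ((↑) '' D)ᶜ

/-- The set of connected components of the complement of `D` in the Riemann sphere. -/
def complComponents (D : Set ℂ) : Set (Set (OnePoint ℂ)) :=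
  (fun x => connectedComponentIn (sphereCompl D) x) '' sphereCompl D

/-- `D` is a `k`-connected domain: open, connected, and its complement in the Riemann sphere has
exactly `k` connected components. -/
def IsKConnectedDomain (k : ℕ) (D : Set ℂ) : Prop :=
  IsOpen D ∧ IsConnected D ∧ (complComponents D).encard = k

/-- `Ω` is contained in `Ω'` and the inclusion map is a homotopy equivalence. -/
def InclusionIsHomotopyEquiv (Ω Ω' : Set ℂ) : Prop :=
  Ω ⊆ Ω' ∧ ∃ e : ContinuousMap.HomotopyEquiv Ω Ω', ∀ z : Ω, ((e z : Ω') : ℂ) = z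

/-- The disk of radius `R` about the origin without the closed disks of radius `ρ` about `0` and
`1/2`. -/
def twoHoles (R ρ : ℝ) : Set ℂ := ball 0 R \ (closedBall 0 ρ ∪ closedBall (1 / 2) ρ)

/-- the centers -/
noncomputable def cs : Finset ℝ := {0, 1 / 2}

lemma cs_card : cs.card = 2 := by
  unfold cs
  rw [Finset.card_pair (by norm_num)]

lemma cs_sep : Pool.Agent.H366R3.ED.Sep cs (1 / 8) := by
  refine ⟨by simp [cs], by simp [cs], ?_, ?_, ?_, by norm_num, le_rfl⟩
  · intro c hc
    simp only [cs, Finset.mem_insert, Finset.mem_singleton] at hc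
    rcases hc with rfl | rfl <;> norm_num
  · intro c hc
    simp only [cs, Finset.mem_insert, Finset.mem_singleton] at hc
    rcases hc with rfl | rfl <;> norm_num
  · intro c hc c' hc' hne
    simp only [cs, Finset.mem_insert, Finset.mem_singleton] at hc hc'
    rcases hc with rfl | rfl <;> rcases hc' with rfl | rfl
    · exact absurd rfl hne
    · norm_num [abs_of_neg]
    · norm_num [abs_of_pos]
    · exact absurd rfl hne

lemma two_eq (R ρ : ℝ) : twoHoles R ρ = OmP cs R ρ := by
  ext z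
  have h1 : z ∈ twoHoles R ρ ↔ z ∈ Om R ρ := Iff.rfl
  rw [h1, mem_Om]
  simp [OmP, cs]

/-- The existence of energy-minimal diffeomorphisms fails for triply connected domains: for all
small `ρ > 0` the unit disk without the closed disks of radius `ρ` about `0` and `1/2` and the disk
of radius `4` without the same closed disks are bounded triply connected domains, the first is
contained in the second and the inclusion is a homotopy equivalence, but no diffeomorphism of class
`C^1` of the first onto the second attains the infimum of the Dirichlet energy over the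
homeomorphisms of class `W^{1,2}`, although this infimum is finite. -/
theorem result : ∃ ρ₀ : ℝ, 0 < ρ₀ ∧ ∀ ρ : ℝ, 0 < ρ → ρ < ρ₀ →
    Bornology.IsBounded (twoHoles 1 ρ) ∧ Bornology.IsBounded (twoHoles 4 ρ) ∧
    IsKConnectedDomain 3 (twoHoles 1 ρ) ∧ IsKConnectedDomain 3 (twoHoles 4 ρ) ∧
    InclusionIsHomotopyEquiv (twoHoles 1 ρ) (twoHoles 4 ρ) ∧
    energyInf (twoHoles 1 ρ) (twoHoles 4 ρ) < ⊤ ∧
    ¬ ∃ h : ℂ → ℂ, IsEnergyMinimalDiffeo (twoHoles 1 ρ) (twoHoles 4 ρ) h := by
  have hA : ∀ ρ : ℝ, 0 < ρ → ρ ≤ 1 / 8 →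
      Bornology.IsBounded (twoHoles 1 ρ) ∧ Bornology.IsBounded (twoHoles 4 ρ) ∧
      IsKConnectedDomain 3 (twoHoles 1 ρ) ∧ IsKConnectedDomain 3 (twoHoles 4 ρ) ∧
      InclusionIsHomotopyEquiv (twoHoles 1 ρ) (twoHoles 4 ρ) ∧
      energyInf (twoHoles 1 ρ) (twoHoles 4 ρ) < ⊤ := by
    intro ρ hρ hρ8
    have hk : ∀ R : ℝ, 1 ≤ R → IsKConnectedDomain 3 (twoHoles R ρ) := by
      intro R hR
      rw [two_eq]
      refine ⟨OmP_open _ _ _, OmP_connected cs_sep hR hρ8, ?_⟩
      have := OmP_comps cs_sep hR hρ hρ8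
      rw [cs_card] at this
      exact this
    refine ⟨isBounded_ball.subset sdiff_subset, isBounded_ball.subset sdiff_subset,
      hk 1 le_rfl, hk 4 (by norm_num), ?_, ?_⟩
    · rw [two_eq, two_eq]
      exact ⟨OmP_mono, OmP_equiv cs_sep hρ8⟩
    · exact (energyInf_le hρ8).trans_lt ENNReal.ofReal_lt_top
  by_contra hcon
  push Not at hcon
  have hseq : ∀ n : ℕ, ∃ ρ : ℝ, 0 < ρ ∧ ρ < 1 / ((n : ℝ) + 8) ∧
      ∃ h : ℂ → ℂ, IsEnergyMinimalDiffeo (twoHoles 1 ρ) (twoHoles 4 ρ) h := by
    intro n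
    obtain ⟨ρ, h1, h2, h3⟩ := hcon (1 / ((n : ℝ) + 8)) (by positivity)
    have h4 : 1 / ((n : ℝ) + 8) ≤ 1 / 8 := by
      apply one_div_le_one_div_of_le (by norm_num)
      have : (0 : ℝ) ≤ n := n.cast_nonneg
      linarith
    obtain ⟨a1, a2, a3, a4, a5, a6⟩ := hA ρ h1 (by linarith)
    exact ⟨ρ, h1, h2, h3 a1 a2 a3 a4 a5 a6⟩
  choose ρ h1 h2 h h3 using hseq
  refine no_seq (ρ := ρ) (h := h) h1 (fun n => ?_) ?_ h3
  · have h4 : 1 / ((n : ℝ) + 8) ≤ 1 / 8 := by
      apply one_div_le_one_div_of_le (by norm_num)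
      have : (0 : ℝ) ≤ n := n.cast_nonneg
      linarith
    linarith [h2 n]
  · apply squeeze_zero (fun n => (h1 n).le) (fun n => (h2 n).le)
    have h5 := (tendsto_natCast_atTop_atTop (R := ℝ)).atTop_add (tendsto_const_nhds (x := (8:ℝ)))
    refine h5.inv_tendsto_atTop.congr fun n => ?_
    simp

end Pool.Agent.Results.MP_e277cf_an.ThreeConnected
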